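import Pool.Agent.Lib.MP_9b987c_gt.HC.UR.UEX

/-!
# The category of representations up to homotopy, quasi-isomorphisms, pullback functors
-/

namespace Pool.Agent.Lib.MP_9b987c_gt.HC

open CategoryTheory

variable {u b : Bool} {G' G : LieGpd}

/-- The identity of a representation up to homotopy. -/
def Rep.one (E : Rep u b G) : Rep.Hom E E := ⟨idF G E.e, PB.id_mor E.ok⟩

/-- The composition of morphisms. -/
def Rep.mul {E E' E'' : Rep u b G} (f : Rep.Hom E E') (g : Rep.Hom E' E'') : Rep.Hom E E'' :=
  ⟨mulF G g.F f.F, PB.mul_mor E'.ok g.ok f.ok⟩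

theorem Rep.one_mul {E E' : Rep u b G} (f : Rep.Hom E E') : Rep.mul (Rep.one E) f = f :=
  Rep.Hom.ext (PB.id_mul f.ok).2

theorem Rep.mul_one {E E' : Rep u b G} (f : Rep.Hom E E') : Rep.mul f (Rep.one E') = f :=
  Rep.Hom.ext (PB.id_mul f.ok).1

theorem Rep.mul_assoc {E₁ E₂ E₃ E₄ : Rep u b G} (f : Rep.Hom E₁ E₂) (g : Rep.Hom E₂ E₃)
    (h : Rep.Hom E₃ E₄) : Rep.mul (Rep.mul f g) h = Rep.mul f (Rep.mul g h) :=
  Rep.Hom.ext (PB.mul_assoc' h.F g.F f.F).symm

/-- The category of representations up to homotopy of `G`. -/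
instance instCatRep (u b : Bool) (G : LieGpd) : Category (Rep u b G) where
  Hom := Rep.Hom
  id := Rep.one
  comp := Rep.mul
  id_comp := Rep.one_mul
  comp_id := Rep.mul_one
  assoc := Rep.mul_assoc

/-- The class of quasi-isomorphisms: morphisms whose component over the objects is a
quasi-isomorphism of complexes on every fibre. -/
def qisRep (u b : Bool) (G : LieGpd) : MorphismProperty (Rep u b G) :=
  fun E E' (f : Rep.Hom E E') => ∀ x, Qis (E.e x) (E.R x []) (E'.e x) (E'.R x []) (f.F x [])

/-- The pullback of a representation up to homotopy. -/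
noncomputable def pullObj (φ : Hypercover G' G) (E : Rep u b G) : Rep u b G' :=
  ⟨E.ι, E.deg, fun x => E.e (φ.ob x), pullF φ E.R, PB.pull_rep φ E.ok⟩

/-- The pullback of a morphism. -/
noncomputable def pullHom (φ : Hypercover G' G) {E E' : Rep u b G} (f : Rep.Hom E E') :
    Rep.Hom (pullObj φ E) (pullObj φ E') := ⟨pullF φ f.F, PB.pull_mor φ f.ok⟩

theorem pullHom_one (φ : Hypercover G' G) (E : Rep u b G) :
    pullHom φ (Rep.one E) = Rep.one (pullObj φ E) :=
  Rep.Hom.ext (PB.pull_idF φ E.e)

theorem pullHom_mul (φ : Hypercover G' G) {E E' E'' : Rep u b G} (f : Rep.Hom E E')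
    (g : Rep.Hom E' E'') : pullHom φ (Rep.mul f g) = Rep.mul (pullHom φ f) (pullHom φ g) :=
  Rep.Hom.ext (PB.pull_mulF φ g.F f.F)

/-- The pullback functor of a hypercover. -/
noncomputable def pullRep (u b : Bool) (φ : Hypercover G' G) : Rep u b G ⥤ Rep u b G' where
  obj E := pullObj φ E
  map f := pullHom φ f
  map_id E := pullHom_one φ E
  map_comp f g := pullHom_mul φ f g

/-- The pullback functor preserves quasi-isomorphisms. -/
theorem pullRep_qis (u b : Bool) (φ : Hypercover G' G) :
    qisRep u b G ≤ (qisRep u b G').inverseImage (pullRep u b φ) := by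
  intro E E' f hf x
  change Qis (E.e (φ.ob x)) (pullF φ E.R x []) (E'.e (φ.ob x)) (pullF φ E'.R x [])
    (pullF φ f.F x [])
  rw [PB.pull_nil, PB.pull_nil, PB.pull_nil]
  exact hf (φ.ob x)

/-- The pullback functor as a functor compatible with quasi-isomorphisms. -/
noncomputable def pullRepLM (u b : Bool) (φ : Hypercover G' G) :
    LocalizerMorphism (qisRep u b G) (qisRep u b G') where
  functor := pullRep u b φ
  map := pullRep_qis u b φ

/-- `Rep^∞[G]`: the localisation of the category of representations up to homotopy of `G` at the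
quasi-isomorphisms. -/
abbrev RepInf (u b : Bool) (G : LieGpd) := (qisRep u b G).Localization

/-- The functor `φ^* : Rep^∞[G] → Rep^∞[G']` induced by the pullback functor. -/
noncomputable abbrev pullInf (u b : Bool) (φ : Hypercover G' G) : RepInf u b G ⥤ RepInf u b G' :=
  (pullRepLM u b φ).localizedFunctor (qisRep u b G).Q (qisRep u b G').Q

end Pool.Agent.Lib.MP_9b987c_gt.HC
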