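import Pool.Agent.Lib.MP_9b987c_gt.HC.Gpd0

/-!
# Representations up to homotopy: public definitions
-/

namespace Pool.Agent.Lib.MP_9b987c_gt.HC

open scoped Manifold ContDiff BigOperators Topology

/-- Linear maps `ℝ^ι → ℝ^κ`. -/
abbrev Lin (ι κ : Type) := (ι → ℝ) →ₗ[ℝ] (κ → ℝ)

/-- The value of a linear map at a vector. -/
abbrev ap {ι κ : Type} (F : Lin ι κ) (z : ι → ℝ) : κ → ℝ := F z

/-- The composition of linear maps. -/
abbrev cmp {ι κ μ : Type} (F : Lin κ μ) (F' : Lin ι κ) : Lin ι μ := F ∘ₗ F'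

/-- The matrix entry of a linear map in row `i` and column `j`. -/
abbrev ent {ι κ : Type} [DecidableEq ι] (F : Lin ι κ) (i : κ) (j : ι) : ℝ := F (Pi.single j 1) i

/-- The sum `F 0 + F 1 + .. + F (n - 1)`. -/
abbrev sumF {ι κ : Type} (n : ℕ) (F : ℕ → Lin ι κ) : Lin ι κ := ∑ j ∈ Finset.range n, F j

/-- The alternating sum `F 0 - F 1 + .. ± F (n - 1)`. -/
abbrev altF {ι κ : Type} (n : ℕ) (F : ℕ → Lin ι κ) : Lin ι κ :=
  ∑ j ∈ Finset.range n, ((-1 : ℝ) ^ j) • F j

/-- The alternating sum `- F 0 + F 1 - .. ± F (n - 1)`. -/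
abbrev altN {ι κ : Type} (n : ℕ) (F : ℕ → Lin ι κ) : Lin ι κ :=
  ∑ j ∈ Finset.range n, ((-1 : ℝ) ^ (j + 1)) • F j

/-- The linear map `F` has degree `s` for the gradings `deg`, `deg'` of `ℝ^ι`, `ℝ^κ`. -/
def HasDeg {ι κ : Type} (deg : ι → ℤ) (deg' : κ → ℤ) (F : Lin ι κ) (s : ℤ) : Prop :=
  ∀ (q : ℤ) (z : ι → ℝ), (∀ i, z i ≠ 0 → deg i = q) → ∀ j, ap F z j ≠ 0 → deg' j = q + s

/-- `f` is a smooth function on `U ⊆ ℝ^d`. -/
abbrev SmR (d : ℕ) (U : Set (Eu d)) (f : Eu d → ℝ) : Prop := ContDiffOn ℝ ∞ f U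

/-- `f` is a smooth function on the objects of `G`. -/
abbrev SmFn (G : LieGpd) (f : G.Ob → ℝ) : Prop := ContMDiff (𝓡 G.m) 𝓘(ℝ, ℝ) ∞ f

/-- Families of linear maps `A x [g_1, .., g_k]` indexed by the chains `x ← x_1 ← .. ← x_k` of
composable arrows of `G` (and by the other pairs of an object and a list of arrows, where the
families used below vanish). -/
abbrev Fam (G : LieGpd) (ι κ : Type) := G.Ob → List G.Ar → Lin ι κ

/-- The family `A` depends smoothly on `(x, g_1, .., g_k) ∈ G_k`, for every `k`: its matrix entries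
are smooth along all smooth maps from open subsets of Euclidean spaces to `G_k` (given by smooth maps
`x`, `g_i` forming a chain at each point). -/
def Smth (G : LieGpd) {ι κ : Type} [DecidableEq ι] (A : Fam G ι κ) : Prop :=
  ∀ (d k : ℕ) (U : Set (Eu d)) (x : Eu d → G.Ob) (g : Fin k → Eu d → G.Ar), OpenIn d U →
    SmOn d G.m U x → (∀ a, SmOn d G.n U (g a)) →
    (∀ u ∈ U, G.Chain (x u) (List.ofFn (fun a => g a u))) →
    ∀ i j, SmR d U (fun u => ent (A (x u) (List.ofFn (fun a => g a u))) i j)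

/-- The data `(deg, e, R)` are a representation up to homotopy of `G`.

The graded vector bundle `E` is the image of a smooth idempotent `e` of degree zero of the trivial
graded bundle with fibre `ℝ^ι` and degrees `deg` (`deg` bounded); near every point `e` involves only
finitely many coordinates (`e_fin`), so `E` is a graded vector bundle of finite, locally constant rank,
and all such bundles arise in this way.  If `b` is true, then `ι` is finite: the bundles are the
bounded graded vector bundles of bounded rank (Serre-Swan).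

`R x [g_1, .., g_k]` is the structure operator `R_k (g_1, .., g_k) : E_(src g_k) → E_(tgt g_1)`,
`x = tgt g_1`, of degree `1 - k` (for `k = 0` the differential of `E_x`), extended by `0` to the
complement of `E` and to lists that are not chains.  The equations are those of Arias Abad and Crainic:
`Σ_{0<j<k} (-1)^j R_{k-1}(.., g_j g_{j+1}, ..) = Σ_{0≤j≤k} (-1)^j R_j(g_1..g_j) R_{k-j}(g_{j+1}..g_k)`.
If `u` is true, then it is unital: `R_1 (1) = id`, and `R_k`, `k ≥ 2`, vanishes if one of the arrows is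
a unit. -/
structure IsRep (u b : Bool) (G : LieGpd) {ι : Type} [DecidableEq ι] (deg : ι → ℤ)
    (e : G.Ob → Lin ι ι) (R : Fam G ι ι) : Prop where
  deg_bdd : ∃ N : ℕ, ∀ i, (deg i).natAbs ≤ N
  e_fin : ∀ x, ∃ S : Finset ι, ∀ᶠ y in 𝓝 x,
    (∀ z, ∀ i, i ∉ S → ap (e y) z i = 0) ∧ (∀ z, (∀ i ∈ S, z i = 0) → ap (e y) z = 0)
  e_smooth : ∀ i j, SmFn G (fun x => ent (e x) i j)
  e_idem : ∀ x, cmp (e x) (e x) = e x
  e_deg : ∀ x, HasDeg deg deg (e x) 0
  R_zero : ∀ x l, ¬ G.Chain x l → R x l = 0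
  R_smooth : Smth G R
  R_deg : ∀ x l, HasDeg deg deg (R x l) (1 - l.length)
  R_left : ∀ x l, cmp (e x) (R x l) = R x l
  R_right : ∀ x l, cmp (R x l) (e (G.fin x l)) = R x l
  eqn : ∀ x l, G.Chain x l →
    altN (l.length - 1) (fun j => R x (G.face j l)) =
      altF (l.length + 1) (fun j => cmp (R x (l.take j)) (R (G.fin x (l.take j)) (l.drop j)))
  unit_one : u = true → ∀ x, R x [G.one x] = e x
  unit_mem : u = true → ∀ x l, 2 ≤ l.length → (∃ y, G.one y ∈ l) → R x l = 0
  bounded : b = true → Finite ι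

/-- `F` is a morphism from `(deg, e, R)` to `(deg', e', R')`: `F x [g_1, .., g_k]` is the component
`F_k (g_1, .., g_k) : E_(src g_k) → E'_(tgt g_1)` of degree `- k`, with
`Σ_{0≤j≤k} (-1)^j F_j(g_1..g_j) R_{k-j}(g_{j+1}..g_k) = Σ_{0≤j≤k} R'_j(g_1..g_j) F_{k-j}(g_{j+1}..g_k)
+ Σ_{0<j<k} (-1)^j F_{k-1}(.., g_j g_{j+1}, ..)`. -/
structure IsMor (G : LieGpd) {ι κ : Type} [DecidableEq ι] [DecidableEq κ] (deg : ι → ℤ)
    (e : G.Ob → Lin ι ι) (R : Fam G ι ι) (deg' : κ → ℤ) (e' : G.Ob → Lin κ κ) (R' : Fam G κ κ)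
    (F : Fam G ι κ) : Prop where
  F_zero : ∀ x l, ¬ G.Chain x l → F x l = 0
  F_smooth : Smth G F
  F_deg : ∀ x l, HasDeg deg deg' (F x l) (-l.length)
  F_left : ∀ x l, cmp (e' x) (F x l) = F x l
  F_right : ∀ x l, cmp (F x l) (e (G.fin x l)) = F x l
  eqn : ∀ x l, G.Chain x l →
    altF (l.length + 1) (fun j => cmp (F x (l.take j)) (R (G.fin x (l.take j)) (l.drop j))) =
      sumF (l.length + 1) (fun j => cmp (R' x (l.take j)) (F (G.fin x (l.take j)) (l.drop j))) +
      altN (l.length - 1) (fun j => F x (G.face j l))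

/-- The composition `(F' F)_k (g_1, .., g_k) = Σ_j F'_j (g_1..g_j) F_{k-j} (g_{j+1}..g_k)`. -/
def mulF (G : LieGpd) {ι κ μ : Type} (A : Fam G κ μ) (B : Fam G ι κ) : Fam G ι μ :=
  fun x l => sumF (l.length + 1) (fun j => cmp (A x (l.take j)) (B (G.fin x (l.take j)) (l.drop j)))

/-- The identity: `e x` on the empty chain at `x`, and `0` on nonempty lists. -/
def idF (G : LieGpd) {ι : Type} (e : G.Ob → Lin ι ι) : Fam G ι ι
  | x, [] => e x
  | _, _ :: _ => 0

open Classical in
/-- The pullback of a family along a hypercover (of the structure operators or of the components of a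
morphism). -/
noncomputable def pullF {G' G : LieGpd} (φ : Hypercover G' G) {ι κ : Type} (A : Fam G ι κ) :
    Fam G' ι κ :=
  fun x l => if G'.Chain x l then A (φ.ob x) (l.map φ.ar) else 0

/-- A chain map `F` between the complexes `(image of e, d)` and `(image of e', d')` is a
quasi-isomorphism: it induces an injective and surjective map on cohomology. -/
def Qis {ι κ : Type} (e d : Lin ι ι) (e' d' : Lin κ κ) (F : Lin ι κ) : Prop :=
  (∀ z, ap e z = z → ap d z = 0 → (∃ y, ap F z = ap d' y) → ∃ y, z = ap d y) ∧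
  (∀ z', ap e' z' = z' → ap d' z' = 0 → ∃ z y, ap e z = z ∧ ap d z = 0 ∧ z' = ap F z + ap d' y)

/-- A representation up to homotopy of the Lie groupoid `G`; `u`: with unit conditions, `b`: on
bundles of bounded rank. -/
structure Rep (u b : Bool) (G : LieGpd) where
  ι : Type
  [dec : DecidableEq ι]
  deg : ι → ℤ
  e : G.Ob → Lin ι ι
  R : Fam G ι ι
  ok : IsRep u b G deg e R

attribute [instance] Rep.dec

/-- Morphisms of representations up to homotopy. -/
@[ext]
structure Rep.Hom {u b : Bool} {G : LieGpd} (E E' : Rep u b G) where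
  F : Fam G E.ι E'.ι
  ok : IsMor G E.deg E.e E.R E'.deg E'.e E'.R F

end Pool.Agent.Lib.MP_9b987c_gt.HC
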