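import Pool.Agent.Lib.MP_9b987c_gt.HC.PB.Cat
import Pool.Agent.Lib.MP_9b987c_gt.HC.All

/-!
# Localisation and the main theorem
-/

namespace Pool.Agent.Lib.MP_9b987c_gt.HC

namespace PB

open CategoryTheory HomotopicalAlgebra

section

variable {G : LieGpd}

/-- Unital representations up to homotopy on bundles of bounded rank. -/
abbrev R1 (G : LieGpd) := Rep true true G

noncomputable instance (E : R1 G) : Fintype E.ι := @Fintype.ofFinite _ (E.ok.bounded rfl)

lemma toRuth {ι : Type} [Fintype ι] [DecidableEq ι] {deg : ι → ℤ} {e : G.Ob → Lin ι ι}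
    {R : Fam G ι ι} (h : IsRep true true G deg e R) : IsRuth G deg e R :=
  ⟨h.e_smooth, h.e_idem, h.e_deg, h.R_zero, h.R_smooth, h.R_deg, h.R_left, h.R_right, h.eqn,
    h.unit_one rfl, h.unit_mem rfl⟩

lemma ofRuth {ι : Type} [Fintype ι] [DecidableEq ι] {deg : ι → ℤ} {e : G.Ob → Lin ι ι}
    {R : Fam G ι ι} (h : IsRuth G deg e R) : IsRep true true G deg e R where
  deg_bdd := by
    obtain ⟨N, hN⟩ := (Set.finite_range (fun i => (deg i).natAbs)).bddAbove
    exact ⟨N, fun i => hN ⟨i, rfl⟩⟩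
  e_fin := fun x => ⟨Finset.univ, Filter.Eventually.of_forall (fun y =>
    ⟨fun z i hi => absurd (Finset.mem_univ i) hi, fun z hz => by
      have : z = 0 := funext (fun i => hz i (Finset.mem_univ i))
      rw [this]
      exact map_zero _⟩)⟩
  e_smooth := h.e_smooth
  e_idem := h.e_idem
  e_deg := h.e_deg
  R_zero := h.R_zero
  R_smooth := h.R_smooth
  R_deg := h.R_deg
  R_left := h.R_left
  R_right := h.R_right
  eqn := h.eqn
  unit_one := fun _ => h.unit_one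
  unit_mem := fun _ => h.unit_mem
  bounded := fun _ => inferInstance

lemma toHom {ι κ : Type} [Fintype ι] [DecidableEq ι] [Fintype κ] [DecidableEq κ] {deg : ι → ℤ}
    {e : G.Ob → Lin ι ι} {R : Fam G ι ι} {deg' : κ → ℤ} {e' : G.Ob → Lin κ κ} {R' : Fam G κ κ}
    {F : Fam G ι κ} (h : IsMor G deg e R deg' e' R' F) : IsHom G deg e R deg' e' R' F :=
  ⟨h.F_zero, h.F_smooth, h.F_deg, h.F_left, h.F_right, h.eqn⟩

lemma ofHom {ι κ : Type} [Fintype ι] [DecidableEq ι] [Fintype κ] [DecidableEq κ] {deg : ι → ℤ}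
    {e : G.Ob → Lin ι ι} {R : Fam G ι ι} {deg' : κ → ℤ} {e' : G.Ob → Lin κ κ} {R' : Fam G κ κ}
    {F : Fam G ι κ} (h : IsHom G deg e R deg' e' R' F) : IsMor G deg e R deg' e' R' F :=
  ⟨h.F_zero, h.F_smooth, h.F_deg, h.F_left, h.F_right, h.eqn⟩

lemma hco_cast {ι κ : Type} {i i' : Fintype ι} [DecidableEq ι] {j j' : Fintype κ} [DecidableEq κ]
    {deg : ι → ℤ} {deg' : κ → ℤ} {t : ℤ} {e : G.Ob → (ι → ℝ) →ₗ[ℝ] (ι → ℝ)}
    {e' : G.Ob → (κ → ℝ) →ₗ[ℝ] (κ → ℝ)} {A : G.Ob → List G.Ar → (ι → ℝ) →ₗ[ℝ] (κ → ℝ)}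
    (h : @HCo G ι κ i _ j _ deg deg' t e e' A) : @HCo G ι κ i' _ j' _ deg deg' t e e' A := by
  obtain rfl : i = i' := Subsingleton.elim _ _
  obtain rfl : j = j' := Subsingleton.elim _ _
  exact h

/-- The structure in the hat convention. -/
abbrev hR (E : R1 G) := tw E.deg E.R

lemma hok (E : R1 G) : HRuth G E.deg E.e (hR E) :=
  ((hHAT G E.ι E.ι E.ι E.deg E.deg E.e E.R E.e E.R).1).1 (toRuth E.ok)

/-- The components in the hat convention. -/
abbrev hF {E E' : R1 G} (f : Rep.Hom E E') := tw E.deg f.F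

lemma hF_ok {E E' : R1 G} (f : Rep.Hom E E') :
    HCo G E.deg E'.deg 0 E.e E'.e (hF f) ∧ HCl G E'.deg (hR E) (hR E') (hF f) :=
  ((hHAT G E.ι E'.ι E'.ι E.deg E'.deg E.e E.R E'.e E'.R).2.1 f.F (toRuth E.ok)
    (toRuth E'.ok)).1 (toHom f.ok)

lemma tw_tw {ι κ : Type} [Fintype ι] [DecidableEq ι] [Fintype κ] [DecidableEq κ] (deg : ι → ℤ)
    (F : G.Ob → List G.Ar → (ι → ℝ) →ₗ[ℝ] (κ → ℝ)) : tw deg (tw deg F) = F :=
  (hHAT G ι κ κ deg (fun _ => 0) (fun _ => 0) (fun _ _ => 0) (fun _ => 0)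
    (fun _ _ => 0)).2.2.1 F

/-- A morphism from a closed cochain in the hat convention. -/
def mkHom {E E' : R1 G} (A : G.Ob → List G.Ar → (E.ι → ℝ) →ₗ[ℝ] (E'.ι → ℝ))
    {i : Fintype E.ι} {j : Fintype E'.ι}
    (h : @HCo G E.ι E'.ι i _ j _ E.deg E'.deg 0 E.e E'.e A)
    (h' : HCl G E'.deg (hR E) (hR E') A) : E ⟶ E' :=
  (⟨tw E.deg A, ofHom (((hHAT G E.ι E'.ι E'.ι E.deg E'.deg E.e E.R E'.e E'.R).2.1 (tw E.deg A)
    (toRuth E.ok) (toRuth E'.ok)).2 (by rw [tw_tw]; exact ⟨hco_cast h, h'⟩))⟩ : Rep.Hom E E')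

lemma hF_mkHom {E E' : R1 G} (A : G.Ob → List G.Ar → (E.ι → ℝ) →ₗ[ℝ] (E'.ι → ℝ))
    {i : Fintype E.ι} {j : Fintype E'.ι}
    (h : @HCo G E.ι E'.ι i _ j _ E.deg E'.deg 0 E.e E'.e A)
    (h' : HCl G E'.deg (hR E) (hR E') A) :
    hF (mkHom A h h') = A := tw_tw _ _

lemma hF_comp {E E' E'' : R1 G} (f : E ⟶ E') (g : E' ⟶ E'') :
    hF (f ≫ g : Rep.Hom E E'') = starG G (hF g) (hF f) :=
  (hHAT G E.ι E'.ι E''.ι E.deg E'.deg E.e E.R E'.e E'.R).2.2.2.1 (Rep.Hom.F g) (Rep.Hom.F f)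
    (Rep.Hom.ok f).F_deg

lemma hF_id (E : R1 G) : hF (𝟙 E : Rep.Hom E E) = unitG G E.e := by
  change tw E.deg (idF G E.e) = _
  rw [idF_eq]
  exact (hHAT G E.ι E.ι E.ι E.deg E.deg E.e E.R E.e E.R).2.2.2.2.1

lemma hF_nil {E E' : R1 G} (f : Rep.Hom E E') (x : G.Ob) : hF f x [] = f.F x [] :=
  (hHAT G E.ι E'.ι E'.ι E.deg E'.deg E.e E.R E'.e E'.R).2.2.2.2.2.1 f.F x

lemma hR_nil (E : R1 G) (x : G.Ob) : hR E x [] = E.R x [] :=
  (hHAT G E.ι E.ι E.ι E.deg E.deg E.e E.R E.e E.R).2.2.2.2.2.1 E.R x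

/-- The object with given structure in the hat convention. -/
def mkRuth {ι : Type} [Fintype ι] [DecidableEq ι] (deg : ι → ℤ)
    (e : G.Ob → (ι → ℝ) →ₗ[ℝ] (ι → ℝ)) (R : G.Ob → List G.Ar → (ι → ℝ) →ₗ[ℝ] (ι → ℝ))
    (h : HRuth G deg e R) : R1 G :=
  ⟨ι, deg, e, tw deg R, ofRuth (((hHAT G ι ι ι deg deg e (tw deg R) e (tw deg R)).1).2
    (by rw [tw_tw]; exact h))⟩

lemma mkRuth_hR {ι : Type} [Fintype ι] [DecidableEq ι] (deg : ι → ℤ)
    (e : G.Ob → (ι → ℝ) →ₗ[ℝ] (ι → ℝ)) (R : G.Ob → List G.Ar → (ι → ℝ) →ₗ[ℝ] (ι → ℝ))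
    (h : HRuth G deg e R) : hR (mkRuth deg e R h) = R := tw_tw _ _

/-- The homotopy relation. -/
def hrel (G : LieGpd) : HomRel (R1 G) := fun E E' f g =>
  Htp G E.deg E.e (hR E) E'.deg E'.e (hR E') (hF f) (hF g)

instance : Congruence (hrel G) where
  equivalence {E E'} := by
    have h := hCNG G E.ι E'.ι E'.ι E.deg E'.deg E'.deg E.e (hR E) E'.e (hR E') E'.e (hR E') (hok E)
      (hok E') (hok E')
    exact ⟨fun f => h.2.2.2.2.2.1 _, fun h1 => h.2.2.2.2.2.2.1 _ _ h1,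
      fun h1 h2 => h.2.2.2.2.2.2.2.1 _ _ _ h1 h2⟩
  comp_left {E E' E''} f {g g'} h1 := by
    have h := hCNG G E.ι E'.ι E''.ι E.deg E'.deg E''.deg E.e (hR E) E'.e (hR E') E''.e (hR E'') (hok E)
      (hok E') (hok E'')
    change Htp G _ _ _ _ _ _ (hF (f ≫ g)) (hF (f ≫ g'))
    rw [hF_comp, hF_comp]
    exact h.2.2.2.2.2.2.2.2.1 _ _ _ (hF_ok f).1 (hF_ok f).2 h1
  comp_right {E E' E''} {f f'} g h1 := by
    have h := hCNG G E.ι E'.ι E''.ι E.deg E'.deg E''.deg E.e (hR E) E'.e (hR E') E''.e (hR E'') (hok E)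
      (hok E') (hok E'')
    change Htp G _ _ _ _ _ _ (hF (f ≫ g)) (hF (f' ≫ g))
    rw [hF_comp, hF_comp]
    exact h.2.2.2.2.2.2.2.2.2 _ _ _ (hF_ok g).1 (hF_ok g).2 h1

/-- The homotopy category. -/
abbrev KG (G : LieGpd) := CategoryTheory.Quotient (hrel G)

/-- The quotient functor. -/
abbrev QG (G : LieGpd) : R1 G ⥤ KG G := Quotient.functor (hrel G)

/-- Quasi-isomorphisms become invertible in the homotopy category. -/
lemma isIso_of_qis {E E' : R1 G} (f : E ⟶ E') (hf : qisRep true true G f) : IsIso ((QG G).map f) := by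
  obtain ⟨B, hB, hB', h1, h2⟩ := hQHE G E.ι E'.ι E.deg E'.deg E.e (hR E) E'.e (hR E') (hF f) (hok E)
    (hok E') (hF_ok f).1 (hF_ok f).2 (by
      intro x
      have := hf x
      rw [hF_nil, hR_nil, hR_nil]
      exact this)
  refine ⟨(QG G).map (mkHom B hB hB'), ?_, ?_⟩
  · rw [← Functor.map_comp, ← CategoryTheory.Functor.map_id]
    apply CategoryTheory.Quotient.sound
    change Htp G _ _ _ _ _ _ (hF (f ≫ mkHom B hB hB')) (hF (𝟙 E))
    rw [hF_comp, hF_id, hF_mkHom]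
    exact h1
  · rw [← Functor.map_comp, ← CategoryTheory.Functor.map_id]
    apply CategoryTheory.Quotient.sound
    change Htp G _ _ _ _ _ _ (hF (mkHom B hB hB' ≫ f)) (hF (𝟙 E'))
    rw [hF_comp, hF_id, hF_mkHom]
    exact h2

/-- The homotopy category is the localisation at the quasi-isomorphisms. -/
instance isLoc (G : LieGpd) : (QG G).IsLocalization (qisRep true true G) := by
  apply Quotient.isLocalization_functor'
  · intro E E' f hf
    exact isIso_of_qis f hf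
  · intro E E' f₀ f₁ h
    obtain ⟨hP, hI, hq, h0, h1, e0, e1, hH⟩ := hPTH G E.ι E'.ι E.deg E'.deg E.e (hR E) E'.e (hR E')
      (hok E) (hok E')
    obtain ⟨Φ, hΦ, hΦ', hΦ0, hΦ1⟩ := hH (hF f₀) (hF f₁) (hF_ok f₀).1 (hF_ok f₀).2 (hF_ok f₁).1
      (hF_ok f₁).2 h
    let P : R1 G := mkRuth (pthDeg E'.deg) (pthE E'.e) (pthR G E'.e (hR E')) hP
    have hPR : (hR P) = pthR G E'.e (hR E') := mkRuth_hR _ _ _ _
    let i : E' ⟶ P := mkHom (E := E') (E' := P) (pthI G E'.e) hI.1 (by rw [hPR]; exact hI.2)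
    let p0 : P ⟶ E' := mkHom (E := P) (E' := E') (pthP0 G E'.e) h0.1 (by rw [hPR]; exact h0.2)
    let p1 : P ⟶ E' := mkHom (E := P) (E' := E') (pthP1 G E'.e) h1.1 (by rw [hPR]; exact h1.2)
    let k : E ⟶ P := mkHom (E := E) (E' := P) Φ hΦ (by rw [hPR]; exact hΦ')
    have tinj : ∀ {A B : R1 G} {f g : A ⟶ B}, hF f = hF g → f = g := by
      intro A B f g hfg
      apply Rep.Hom.ext (x := (f : Rep.Hom A B)) (y := (g : Rep.Hom A B))
      have := congrArg (tw A.deg) hfg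
      rwa [tw_tw, tw_tw] at this
    refine ⟨{ P := P, p₀ := p0, p₁ := p1, ι := i, ι_p₀ := ?_, ι_p₁ := ?_ },
      { h := k, h₀ := ?_, h₁ := ?_ }, ?_⟩
    · apply tinj
      rw [hF_comp, hF_id, hF_mkHom, hF_mkHom]
      exact e0
    · apply tinj
      rw [hF_comp, hF_id, hF_mkHom, hF_mkHom]
      exact e1
    · apply tinj
      change hF (k ≫ p0) = hF f₀
      rw [hF_comp, hF_mkHom, hF_mkHom]
      exact hΦ0
    · apply tinj
      change hF (k ≫ p1) = hF f₁
      rw [hF_comp, hF_mkHom, hF_mkHom]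
      exact hΦ1
    · intro x
      have h2 := hq x
      have h3 : P.R x [] = pthR G E'.e (hR E') x [] := by rw [← hR_nil, hPR]
      have h4 : i.F x [] = pthI G E'.e x [] := by rw [← hF_nil, hF_mkHom]
      change QisAt (E'.e x) (E'.R x []) (P.e x) (P.R x []) (i.F x [])
      rw [h3, h4, ← hR_nil]
      exact h2

end

section

variable {G' G : LieGpd} (φ : Hypercover G' G)

lemma pull_hR (E : R1 G) : (hR ((pullRep true true φ).obj E)) = pullG φ (hR E) :=
  (hHAT G E.ι E.ι E.ι E.deg E.deg E.e E.R E.e E.R).2.2.2.2.2.2 G' φ E.R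

lemma pull_hF {E E' : R1 G} (f : E ⟶ E') : hF ((pullRep true true φ).map f) = pullG φ (hF f) :=
  (hHAT G E.ι E'.ι E'.ι E.deg E'.deg E.e E.R E'.e E'.R).2.2.2.2.2.2 G' φ f.F

/-- The functor between the homotopy categories. -/
noncomputable def pullK : KG G ⥤ KG G' :=
  CategoryTheory.Quotient.lift (hrel G) (pullRep true true φ ⋙ QG G') (by
    intro E E' f g h
    apply CategoryTheory.Quotient.sound
    change Htp G' E.deg (fun x => E.e (φ.ob x)) (hR ((pullRep true true φ).obj E)) E'.deg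
      (fun x => E'.e (φ.ob x)) (hR ((pullRep true true φ).obj E')) (hF ((pullRep true true φ).map f)) (hF ((pullRep true true φ).map g))
    rw [pull_hR, pull_hR, pull_hF, pull_hF]
    exact (hPUL G' G φ E.ι E'.ι E'.ι E.deg E'.deg E.e (hR E) E'.e (hR E')).2.2.2.1 _ _ h)

instance full_pullK : (pullK φ).Full where
  map_surjective := by
    rintro ⟨E⟩ ⟨E'⟩ f
    obtain ⟨f, rfl⟩ := (QG G').map_surjective f
    have hff := hHFF G' G φ (hTOP G' G φ) E.ι E'.ι E.deg E'.deg E.e (hR E) E'.e (hR E') (hok E) (hok E')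
    have hf := hF_ok f
    have hcl : HCl G' E'.deg (pullG φ (hR E)) (pullG φ (hR E')) (hF f) := by
      have := hf.2
      rw [pull_hR, pull_hR] at this
      exact this
    obtain ⟨F, hF1, hF2, hF3⟩ := hff.1 (hF f) hf.1 hcl
    refine ⟨(QG G).map (mkHom F hF1 hF2), ?_⟩
    change (QG G').map ((pullRep true true φ).map (mkHom F hF1 hF2)) = (QG G').map f
    apply CategoryTheory.Quotient.sound
    change Htp G' E.deg (fun x => E.e (φ.ob x)) (hR ((pullRep true true φ).obj E)) E'.deg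
      (fun x => E'.e (φ.ob x)) (hR ((pullRep true true φ).obj E')) (hF ((pullRep true true φ).map (mkHom F hF1 hF2))) (hF f)
    rw [pull_hR, pull_hR, pull_hF, hF_mkHom]
    exact hF3

instance faithful_pullK : (pullK φ).Faithful where
  map_injective := by
    rintro ⟨E⟩ ⟨E'⟩ f g hfg
    obtain ⟨f, rfl⟩ := (QG G).map_surjective f
    obtain ⟨g, rfl⟩ := (QG G).map_surjective g
    change (QG G').map ((pullRep true true φ).map f) = (QG G').map ((pullRep true true φ).map g) at hfg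
    rw [Quotient.functor_map_eq_iff] at hfg
    apply CategoryTheory.Quotient.sound
    have hff := hHFF G' G φ (hTOP G' G φ) E.ι E'.ι E.deg E'.deg E.e (hR E) E'.e (hR E') (hok E) (hok E')
    apply hff.2 _ _ (hF_ok f).1 (hF_ok g).1
    change Htp G' E.deg (fun x => E.e (φ.ob x)) (hR ((pullRep true true φ).obj E)) E'.deg
      (fun x => E'.e (φ.ob x)) (hR ((pullRep true true φ).obj E')) (hF ((pullRep true true φ).map f)) (hF ((pullRep true true φ).map g))
      at hfg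
    rw [pull_hR, pull_hR, pull_hF, pull_hF] at hfg
    exact hfg

instance essSurj_pullK : (pullK φ).EssSurj where
  mem_essImage := by
    rintro ⟨E'⟩
    obtain ⟨κ, _, _, dE, eE, RE, Ps, h1, h2, h3, h4⟩ := hHES G' G φ (hTOP G' G φ) E'.ι E'.deg E'.e
      (hR E') (hok E')
    let E : R1 G := mkRuth dE eE RE h1
    have hER : (hR E) = RE := mkRuth_hR _ _ _ _
    have hcl : HCl G' E'.deg (hR ((pullRep true true φ).obj E)) (hR E') Ps := by
      rw [pull_hR, hER]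
      exact h3
    let ψ : (pullRep true true φ).obj E ⟶ E' := mkHom (E := (pullRep true true φ).obj E) (E' := E') Ps h2 hcl
    have hq : qisRep true true G' ψ := by
      intro x
      have h5 : ψ.F x [] = Ps x [] := by rw [← hF_nil, hF_mkHom]
      have h6 : ((pullRep true true φ).obj E).R x [] = RE (φ.ob x) [] := by
        rw [← hR_nil, pull_hR, hER]
        exact (hPUL G' G φ κ κ κ dE dE eE RE eE RE).2.2.2.2.2.2 RE x
      have h7 := h4 x
      change QisAt (eE (φ.ob x)) (((pullRep true true φ).obj E).R x []) (E'.e x) (E'.R x []) (ψ.F x [])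
      rw [h5, h6, ← hR_nil]
      exact h7
    exact ⟨(QG G).obj E, ⟨@asIso _ _ _ _ ((QG G').map ψ) (isIso_of_qis ψ hq)⟩⟩

instance isEquivalence_pullK : (pullK φ).IsEquivalence where

/-- **Main theorem.** -/
theorem main : (pullRepLM true true φ).IsLocalizedEquivalence := by
  let _ : CatCommSq (pullRepLM true true φ).functor (QG G) (QG G') (pullK φ) :=
    ⟨(CategoryTheory.Quotient.lift.isLift (hrel G) (pullRep true true φ ⋙ QG G') _).symm⟩
  exact LocalizerMorphism.IsLocalizedEquivalence.mk' (pullRepLM true true φ) (QG G) (QG G') (pullK φ)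

theorem main' : ((pullRepLM true true φ).localizedFunctor (qisRep true true G).Q (qisRep true true G').Q).IsEquivalence :=
  (main φ).isEquivalence

end

end PB

end Pool.Agent.Lib.MP_9b987c_gt.HC
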