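import Pool.Agent.Lib.MP_9b987c_gt.HC.PB.Cat
import Pool.Agent.Lib.MP_9b987c_gt.HC.UR.UEX
import Pool.Agent.Lib.MP_9b987c_gt.HC.NU.NEX

section
/-!
# Fibre cohomology of representations up to homotopy
-/
namespace Pool.Agent.Lib.MP_9b987c_gt.HC.PB

open scoped Manifold ContDiff BigOperators Topology
open CategoryTheory UR

variable {u b : Bool} {G' G : LieGpd}

lemma isCh {E E' : Rep u b G} (f : Rep.Hom E E') (x : G.Ob) :
    IsCh (E.e x) (E.R x []) (E'.e x) (E'.R x []) (f.F x []) := by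
  refine ⟨f.ok.F_left x [], ?_⟩
  have := f.ok.eqn x [] trivial
  simp only [altF, altN, sumF, cmp, List.length_nil, zero_add, Finset.range_one,
    Finset.sum_singleton, pow_zero, List.take_nil, List.drop_nil, one_smul, Nat.zero_sub,
    Finset.range_zero, Finset.sum_empty, add_zero, LieGpd.fin] at this
  exact this

/-- The fibre cohomology functor at `x`. -/
noncomputable def coh (u b : Bool) (x : G.Ob) : Rep u b G ⥤ ModuleCat ℝ where
  obj E := ModuleCat.of ℝ (Hs (E.e x) (E.R x []))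
  map {E E'} f := ModuleCat.ofHom (hMap (isCh f x))
  map_id E := by
    apply ModuleCat.hom_ext
    apply LinearMap.ext
    intro q
    obtain ⟨z, rfl⟩ := Submodule.Quotient.mk_surjective _ q
    have h4 : (Submodule.Quotient.mk (zMap (isCh (𝟙 E : Rep.Hom E E) x) z) :
        Hs (E.e x) (E.R x [])) = Submodule.Quotient.mk z := by
      rw [mk_eq]
      refine ⟨0, ?_⟩
      change _ = E.e x z.1 - z.1
      rw [z.2.1]; simp
    exact h4
  map_comp {E E' E''} f g := by
    apply ModuleCat.hom_ext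
    apply LinearMap.ext
    intro q
    obtain ⟨z, rfl⟩ := Submodule.Quotient.mk_surjective _ q
    have h4 : (Submodule.Quotient.mk (zMap (isCh (f ≫ g : Rep.Hom E E'') x) z) :
        Hs (E''.e x) (E''.R x [])) =
        Submodule.Quotient.mk (zMap (isCh (g : Rep.Hom E' E'') x)
          (zMap (isCh (f : Rep.Hom E E') x) z)) := by
      rw [mk_eq]
      refine ⟨0, ?_⟩
      change _ = mulF G (Rep.Hom.F g) (Rep.Hom.F f) x [] z.1 - g.F x [] (f.F x [] z.1)
      simp [mulF, sumF, cmp, LieGpd.fin]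
    exact h4

lemma coh_inverts (u b : Bool) (x : G.Ob) : (qisRep u b G).IsInvertedBy (coh u b x) := by
  intro E E' f hf
  have hb := hMap_bijective (isCh (f : Rep.Hom E E') x) (hf x)
  let Φ : Hs (E.e x) (E.R x []) ≃ₗ[ℝ] Hs (E'.e x) (E'.R x []) := LinearEquiv.ofBijective _ hb
  exact (inferInstance : IsIso (Φ.toModuleIso.hom))

/-- If the functor between the localised categories is an equivalence, then every representation up to
homotopy of `G'` has the same fibre cohomology as a pullback. -/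
theorem coh_of_equiv (φ : Hypercover G' G) (hE : (pullInf u b φ).IsEquivalence) (E' : Rep u b G') :
    ∃ E : Rep u b G, ∀ x, Nonempty (Hs (E.e (φ.ob x)) (E.R (φ.ob x) []) ≃ₗ[ℝ]
      Hs (E'.e x) (E'.R x [])) := by
  let Φ := pullInf u b φ
  have hsurj : Φ.EssSurj := hE.essSurj
  let X := Φ.objPreimage ((qisRep u b G').Q.obj E')
  have iX : Φ.obj X ≅ (qisRep u b G').Q.obj E' := Φ.objObjPreimageIso _
  have hQ : (qisRep u b G).Q.EssSurj := Localization.essSurj (qisRep u b G).Q (qisRep u b G)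
  let E := (qisRep u b G).Q.objPreimage X
  have iE : (qisRep u b G).Q.obj E ≅ X := (qisRep u b G).Q.objObjPreimageIso X
  have i1 : (qisRep u b G').Q.obj ((pullRep u b φ).obj E) ≅ (qisRep u b G').Q.obj E' :=
    (((pullRepLM u b φ).catCommSq (qisRep u b G).Q (qisRep u b G').Q).iso.app E) ≪≫
      Φ.mapIso iE ≪≫ iX
  refine ⟨E, fun x => ?_⟩
  let L := Localization.lift (coh u b x) (coh_inverts u b x) (qisRep u b G').Q
  have iL : (qisRep u b G').Q ⋙ L ≅ coh u b x := Localization.Lifting.iso _ (qisRep u b G') _ _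
  have j : (coh u b x).obj ((pullRep u b φ).obj E) ≅ (coh u b x).obj E' :=
    (iL.app _).symm ≪≫ L.mapIso i1 ≪≫ iL.app _
  have jl : Hs (E.e (φ.ob x)) (pullF φ E.R x []) ≃ₗ[ℝ] Hs (E'.e x) (E'.R x []) := j.toLinearEquiv
  rw [pull_nil] at jl
  exact ⟨jl⟩

end Pool.Agent.Lib.MP_9b987c_gt.HC.PB
end

section
/-!
# Without unit conditions, or without a bound on the rank
-/
namespace Pool.Agent.Lib.MP_9b987c_gt.HC.PB

open scoped Manifold ContDiff BigOperators Topology
open CategoryTheory UR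

variable {b : Bool} {G' G : LieGpd}

lemma ofRuth0 {ι : Type} [Fintype ι] [DecidableEq ι] {deg : ι → ℤ} {e : G.Ob → Lin ι ι}
    {R : Fam G ι ι} (h : NU.IsRuth0 G deg e R) : IsRep false b G deg e R where
  deg_bdd := by
    obtain ⟨N, hN⟩ := (Set.finite_range (fun i => (deg i).natAbs)).bddAbove
    exact ⟨N, fun i => hN ⟨i, rfl⟩⟩
  e_fin := fun x => ⟨Finset.univ, Filter.Eventually.of_forall (fun y =>
    ⟨fun z i hi => absurd (Finset.mem_univ i) hi, fun z hz => by
      have : z = 0 := funext (fun i => hz i (Finset.mem_univ i))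
      rw [this]
      exact map_zero _⟩)⟩
  e_smooth := h.e_smooth
  e_idem := h.e_idem
  e_deg := h.e_deg
  R_zero := h.R_zero
  R_smooth := h.R_smooth
  R_deg := h.R_deg
  R_left := h.R_left
  R_right := h.R_right
  eqn := h.eqn
  unit_one := fun h => absurd h (by decide)
  unit_mem := fun h => absurd h (by decide)
  bounded := fun _ => inferInstance

lemma ofRuthU {u : Bool} {ι : Type} [DecidableEq ι] {deg : ι → ℤ} {e : G.Ob → Lin ι ι}
    {R : Fam G ι ι} (h : IsRuthU G deg e R) : IsRep u false G deg e R where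
  deg_bdd := h.deg_bdd
  e_fin := h.e_fin
  e_smooth := h.e_smooth
  e_idem := h.e_idem
  e_deg := h.e_deg
  R_zero := h.R_zero
  R_smooth := h.R_smooth
  R_deg := h.R_deg
  R_left := h.R_left
  R_right := h.R_right
  eqn := h.eqn
  unit_one := fun _ => h.unit_one
  unit_mem := fun _ => h.unit_mem
  bounded := fun h => absurd h (by decide)

/-- Without unit conditions. -/
theorem negUnit (b : Bool) : ∃ (G' G : LieGpd) (φ : Hypercover G' G),
    ¬ (pullInf false b φ).IsEquivalence := by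
  obtain ⟨G', G, φ, deg, e, R, x₀, x₁, hR, hφ, ⟨z, hz, hz', hz''⟩, hex⟩ := NU.specNEX
  refine ⟨G', G, φ, fun hE => ?_⟩
  obtain ⟨E, hE⟩ := coh_of_equiv φ hE ⟨Fin 2, deg, e, R, ofRuth0 hR⟩
  obtain ⟨f0⟩ := hE x₀
  obtain ⟨f1⟩ := hE x₁
  rw [hφ] at f0
  have f2 : Hs (e x₀) (R x₀ []) ≃ₗ[ℝ] Hs (e x₁) (R x₁ []) := f0.symm.trans f1
  have hsub : Subsingleton (Hs (e x₁) (R x₁ [])) := by
    constructor
    intro q q'
    obtain ⟨w, rfl⟩ := Submodule.Quotient.mk_surjective _ q
    obtain ⟨w', rfl⟩ := Submodule.Quotient.mk_surjective _ q'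
    rw [mk_eq]
    obtain ⟨y, hy⟩ := hex (w.1 - w'.1) (by rw [map_sub, w.2.1, w'.2.1])
      (by rw [map_sub, w.2.2, w'.2.2]; simp)
    exact ⟨y, hy.symm⟩
  have hsub0 : Subsingleton (Hs (e x₀) (R x₀ [])) := f2.toEquiv.subsingleton
  have hab : (Submodule.Quotient.mk ⟨z, hz, hz'⟩ : Hs (e x₀) (R x₀ [])) =
      Submodule.Quotient.mk 0 := Subsingleton.elim _ _
  rw [mk_eq] at hab
  obtain ⟨y, hy⟩ := hab
  exact hz'' ⟨y, by rw [hy]; simp⟩

/-- Without a bound on the rank. -/
theorem negBound (u : Bool) : ∃ (G' G : LieGpd) (φ : Hypercover G' G),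
    ¬ (pullInf u false φ).IsEquivalence := by
  obtain ⟨G', G, φ, ι, _, deg, e, R, hR, hconn, hex⟩ := specUEX
  refine ⟨G', G, φ, fun hE => ?_⟩
  obtain ⟨E, hE⟩ := coh_of_equiv φ hE ⟨ι, deg, e, R, ofRuthU hR⟩
  have hfd : ∀ y, FiniteDimensional ℝ (LinearMap.range (E.e y)) := by
    intro y
    obtain ⟨S, hS⟩ := E.ok.e_fin y
    exact (rank_eq (f := E.e y) hS.self_of_nhds (E.ok.e_idem y)).1
  obtain ⟨p₀, -⟩ := hex 0
  obtain ⟨p, w, hw, hc⟩ := hex (Module.finrank ℝ (LinearMap.range (E.e (φ.ob p₀))) + 1)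
  obtain ⟨jl⟩ := hE p
  change Hs (E.e (φ.ob p)) (E.R (φ.ob p) []) ≃ₗ[ℝ] Hs (e p) (R p []) at jl
  have hfp := hfd (φ.ob p)
  obtain ⟨f1, f2⟩ := finrank_Hs_le (e := E.e (φ.ob p)) (d := E.R (φ.ob p) [])
  have hrc := rank_const (e := E.e) E.ok.e_idem E.ok.e_fin
    (fun i j => (E.ok.e_smooth i j).continuous) (φ.ob p) (φ.ob p₀)
  have f3 : FiniteDimensional ℝ (Hs (e p) (R p [])) := Module.Finite.equiv jl
  have hli : LinearIndependent ℝ
      (fun i => (Submodule.Quotient.mk ⟨w i, hw i⟩ : Hs (e p) (R p []))) := by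
    rw [Fintype.linearIndependent_iff]
    intro c hc0
    have h1 : (Submodule.Quotient.mk (∑ i, c i • (⟨w i, hw i⟩ : Zs (e p) (R p []))) :
        Hs (e p) (R p [])) = Submodule.Quotient.mk 0 := by
      have h2 : (Bs (e p) (R p [])).mkQ (∑ i, c i • (⟨w i, hw i⟩ : Zs (e p) (R p []))) = 0 := by
        rw [map_sum, ← hc0]
        refine Finset.sum_congr rfl (fun i _ => ?_)
        rw [map_smul]
        rfl
      exact h2
    rw [mk_eq] at h1
    obtain ⟨y, hy⟩ := h1
    have h3 := hc c ⟨y, by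
      rw [hy]
      simp⟩
    intro i
    rw [h3]
    rfl
  have h5 := hli.fintype_card_le_finrank
  rw [Fintype.card_fin, ← jl.finrank_eq] at h5
  omega

/-- If `u` or `b` is false, the functor is not always an equivalence. -/
theorem neg (u b : Bool) (h : u = false ∨ b = false) : ∃ (G' G : LieGpd) (φ : Hypercover G' G),
    ¬ (pullInf u b φ).IsEquivalence := by
  rcases h with rfl | rfl
  · exact negUnit b
  · exact negBound u

end Pool.Agent.Lib.MP_9b987c_gt.HC.PB
end
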